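import Mathlib
import Pool.Agent.W25.UB.Stm2
import Pool.Agent.W25.UN.FixB

/-! Project UB: sizes and geometric parameters for the second wave (presieve end `DB (2 N) B`). -/

set_option autoImplicit false

namespace Pool.Agent.W460.UBT

open Finset Filter Topology
open Pool.Agent.H410R2 hiding GP GP_prof GP_cut_some GP_cut_none GP_lip gg_pos gg_le_one gg_anti ee_bound ee_nonneg gg_lip LB_gg LB_ee Sums exists_sums yx wx wxi Br sum_GP_none sum_GP_some sum_GP_some_ee sum_GP_some_one sum_GPr_none sum_GPr_some S1_final QI_final S2_final w_abs_le wmax gg ee I1 I2 IE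
open Pool.Agent.H361R2.GM
open Pool.Agent.H362R2.CM
open Pool.Agent.W25.UN
open Pool.Agent.W25.UB (DB PB)

variable {k : ℕ}

/-- exponent of the presieve level -/
noncomputable def Jb (D' : ℕ) : ℕ := Nat.clog 2 (Nat.clog 2 D')

theorem PB_spec (α h : Fin k → ℤ) (N B : ℕ) (ρ₁ : ℝ) (hρ₁ : ρ₁ ≤ 1 / 4) (hN : 1 ≤ N) :
    ∀ p ∈ PB α h N B ρ₁,
    p.Prime ∧ DB (2 * N) B < p ∧ p ∉ CL (uB α) (wB h N) ∧ (p : ℝ) ≤ Real.exp (Real.log N / 4) ∧
      (p : ℝ) ≤ N := by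
  intro p hp
  unfold PB at hp
  rw [Finset.mem_filter, Finset.mem_Icc] at hp
  have h0 : 0 ≤ Real.log N := Real.log_nonneg (by exact_mod_cast hN : (1 : ℝ) ≤ N)
  have h1 : (p : ℝ) ≤ Real.exp (Real.log N / 4) := by
    refine ((Nat.cast_le.2 hp.1.2).trans (Nat.floor_le (Real.exp_pos _).le)).trans ?_
    apply Real.exp_le_exp.2
    have := mul_le_mul_of_nonneg_right hρ₁ h0
    linarith
  refine ⟨hp.2.1, by omega, hp.2.2, h1, h1.trans ?_⟩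
  have hN0 : (0 : ℝ) < N := by exact_mod_cast hN
  have h2 : Real.log N / 4 ≤ Real.log N := by linarith
  calc Real.exp (Real.log N / 4) ≤ Real.exp (Real.log N) := Real.exp_le_exp.2 h2
    _ = N := Real.exp_log hN0

theorem DB_le (X B : ℕ) (hX : 1 ≤ X) : (DB X B : ℝ) ≤ (Real.log X) ^ B := by
  have h0 : 0 ≤ Real.log X := Real.log_nonneg (by exact_mod_cast hX : (1 : ℝ) ≤ X)
  have h1 : 0 ≤ (Real.log X) ^ B := by positivity
  have h2 := Nat.ceil_lt_add_one h1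
  unfold DB
  rcases Nat.eq_zero_or_pos ⌈(Real.log X) ^ B⌉₊ with h3 | h3
  · rw [h3]
    simpa using h1
  · have h4 : ((⌈(Real.log X) ^ B⌉₊ - 1 : ℕ) : ℝ) = (⌈(Real.log X) ^ B⌉₊ : ℝ) - 1 := by
      rw [Nat.cast_sub h3, Nat.cast_one]
    rw [h4]
    linarith

theorem DB_ge (X B : ℕ) : (Real.log X) ^ B - 1 ≤ (DB X B : ℝ) := by
  have h1 := Nat.le_ceil ((Real.log X) ^ B)
  have h2 : ⌈(Real.log X) ^ B⌉₊ ≤ DB X B + 1 := by unfold DB; omega
  have h3 : (⌈(Real.log X) ^ B⌉₊ : ℝ) ≤ (DB X B : ℝ) + 1 := by exact_mod_cast h2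
  linarith

/-- upper bound by a power of `log N` -/
theorem DB_up (B : ℕ) : ∀ᶠ N : ℕ in atTop, (DB (2 * N) B : ℝ) ≤ (Real.log N) ^ (B + 1) := by
  filter_upwards [ev_log ((2 : ℝ) ^ B), ev_log 1, eventually_ge_atTop 1] with N h1 h2 hN
  have hN0 : (0 : ℝ) < N := by exact_mod_cast hN
  refine (DB_le (2 * N) B (by omega)).trans ?_
  have h3 : Real.log ((2 * N : ℕ) : ℝ) ≤ 2 * Real.log N := by
    push_cast
    rw [Real.log_mul (by norm_num) hN0.ne']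
    have := Real.log_two_lt_d9
    linarith
  have h4 : 0 ≤ Real.log ((2 * N : ℕ) : ℝ) := by
    apply Real.log_nonneg
    have : 1 ≤ 2 * N := by omega
    exact_mod_cast this
  calc (Real.log ((2 * N : ℕ) : ℝ)) ^ B ≤ (2 * Real.log N) ^ B := pow_le_pow_left₀ h4 h3 _
    _ = 2 ^ B * (Real.log N) ^ B := by rw [mul_pow]
    _ ≤ Real.log N * (Real.log N) ^ B := by gcongr
    _ = _ := by ring

theorem ev_DB (B : ℕ) (hB : 3 ≤ B) (C : ℕ) : ∀ᶠ N : ℕ in atTop, C ≤ DB (2 * N) B := by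
  filter_upwards [ev_log (C + 1), ev_log 1, eventually_ge_atTop 1] with N h1 h2 hN
  have hN0 : (0 : ℝ) < N := by exact_mod_cast hN
  have h3 : Real.log N ≤ Real.log ((2 * N : ℕ) : ℝ) := by
    apply Real.log_le_log hN0
    push_cast
    linarith
  have h4 : Real.log ((2 * N : ℕ) : ℝ) ≤ (Real.log ((2 * N : ℕ) : ℝ)) ^ B :=
    le_self_pow₀ (by linarith) (by omega)
  have h5 := DB_ge (2 * N) B
  have h6 : (C : ℝ) ≤ DB (2 * N) B := by linarith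
  exact_mod_cast h6

theorem Jb_le (D' : ℕ) : D' ≤ 2 ^ 2 ^ Jb D' := by
  unfold Jb
  calc D' ≤ 2 ^ Nat.clog 2 D' := Nat.le_pow_clog (by norm_num) _
    _ ≤ 2 ^ 2 ^ Nat.clog 2 (Nat.clog 2 D') :=
      Nat.pow_le_pow_right (by norm_num) (Nat.le_pow_clog (by norm_num) _)

theorem Jb_up (D' m : ℕ) (l : ℝ) (hD : 5 ≤ D') (hl : 4 ≤ l) (hDl : (D' : ℝ) ≤ l ^ m) :
    ((2 : ℝ) ^ 2 ^ Jb D') ≤ l ^ (2 * m + 1) ∧ ((Jb D' : ℝ) + 2) ≤ l ^ (2 * m + 2) := by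
  set m1 := Nat.clog 2 D' with hm1
  have h1 : 2 ^ m1 ≤ 2 * D' := by
    have h2 : 2 ^ m1.pred < D' := Nat.pow_pred_clog_lt_self (by norm_num) (by omega)
    have h3 : 0 < m1 := Nat.clog_pos (by norm_num) (by omega)
    have h4 : m1 = m1.pred + 1 := by
      rw [Nat.pred_eq_sub_one]; omega
    rw [h4, pow_succ]
    omega
  have hm12 : 2 ≤ m1 := by
    by_contra hc
    have h2 : D' ≤ 2 ^ m1 := Nat.le_pow_clog (by norm_num) _
    have h3 : 2 ^ m1 ≤ 2 ^ 1 := Nat.pow_le_pow_right (by norm_num) (by omega)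
    omega
  have h2 : 2 ^ Jb D' ≤ 2 * m1 := by
    have e : Jb D' = Nat.clog 2 m1 := rfl
    rw [e]
    have h2 : 2 ^ (Nat.clog 2 m1).pred < m1 := Nat.pow_pred_clog_lt_self (by norm_num) (by omega)
    have h3 : 0 < Nat.clog 2 m1 := Nat.clog_pos (by norm_num) (by omega)
    have h4 : Nat.clog 2 m1 = (Nat.clog 2 m1).pred + 1 := by
      rw [Nat.pred_eq_sub_one]; omega
    rw [h4, pow_succ]
    omega
  have h3 : 2 ^ 2 ^ Jb D' ≤ 4 * D' ^ 2 := by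
    calc 2 ^ 2 ^ Jb D' ≤ 2 ^ (2 * m1) := Nat.pow_le_pow_right (by norm_num) h2
      _ = (2 ^ m1) ^ 2 := by rw [← pow_mul]; ring_nf
      _ ≤ (2 * D') ^ 2 := Nat.pow_le_pow_left h1 2
      _ = _ := by ring
  have h4 : ((2 : ℝ) ^ 2 ^ Jb D') ≤ 4 * (l ^ m) ^ 2 := by
    have h5 : (((2 ^ 2 ^ Jb D' : ℕ)) : ℝ) ≤ ((4 * D' ^ 2 : ℕ) : ℝ) := by exact_mod_cast h3
    push_cast at h5
    refine h5.trans ?_
    gcongr
  have h5 : ((2 : ℝ) ^ 2 ^ Jb D') ≤ l ^ (2 * m + 1) := by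
    refine h4.trans ?_
    have : (0 : ℝ) ≤ l ^ (2 * m) := by positivity
    calc 4 * (l ^ m) ^ 2 = 4 * l ^ (2 * m) := by rw [← pow_mul, mul_comm m 2]
      _ ≤ l * l ^ (2 * m) := by gcongr
      _ = _ := by ring
  refine ⟨h5, ?_⟩
  have h6 : Jb D' < 2 ^ Jb D' := Nat.lt_two_pow_self
  have h7 : 2 ^ Jb D' < 2 ^ 2 ^ Jb D' := Nat.lt_two_pow_self
  have h8 : ((Jb D' : ℕ) : ℝ) + 2 ≤ 2 * (2 : ℝ) ^ 2 ^ Jb D' := by
    have h9 : Jb D' + 2 ≤ 2 * 2 ^ 2 ^ Jb D' := by omega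
    exact_mod_cast h9
  refine h8.trans ?_
  have : (0 : ℝ) ≤ l ^ (2 * m + 1) := by positivity
  calc 2 * (2 : ℝ) ^ 2 ^ Jb D' ≤ 2 * l ^ (2 * m + 1) := by gcongr
    _ ≤ l * l ^ (2 * m + 1) := by gcongr; linarith
    _ = _ := by ring

/-- crude lower bound of the main size -/
theorem ZZ_lowB (k m : ℕ) (V Δ W B L c l N D' ρ : ℝ) (hl : 1 ≤ l) (hW : 0 < W) (hρ : 0 < ρ)
    (hL : L = ρ * l) (hD'0 : 0 < D') (hD' : D' ≤ l ^ m) (hV : (1 / D') ^ (2 * (k + 1)) ≤ V)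
    (hB : 1 / D' ≤ B) (hΔ : Δ = c * N) (hc : 0 < c) (hN : 0 ≤ N)
    (hbig : 48 * W / (c * ρ ^ (k + 1)) ≤ l) :
    N / l ^ (3 * m * (k + 1) + 1) ≤ ZZ k V Δ W B L := by
  have hl0 : 0 < l := by linarith
  have h1 : 1 / l ^ m ≤ 1 / D' := one_div_le_one_div_of_le hD'0 hD'
  have hB' : 1 / l ^ m ≤ B := h1.trans hB
  have hV' : (1 / l ^ m) ^ (2 * (k + 1)) ≤ V := by
    refine le_trans ?_ hV
    gcongr
  have hBL : ρ / l ^ m ≤ B * L := by
    rw [hL]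
    have h3 : ρ / l ^ m ≤ ρ / l ^ m * l := le_mul_of_one_le_right (by positivity) hl
    calc ρ / l ^ m ≤ ρ / l ^ m * l := h3
      _ = 1 / l ^ m * (ρ * l) := by field_simp
      _ ≤ B * (ρ * l) := by gcongr
  have hBL0 : 0 ≤ ρ / l ^ m := by positivity
  unfold ZZ
  have h2 : (1 / l ^ m) ^ (2 * (k + 1)) * (c * N) / W * ((ρ / l ^ m) / 48 * (ρ / l ^ m) ^ k) ≤
      V * Δ / W * (B * (L / 48) * (B * L) ^ k) := by
    rw [hΔ]
    have h3 : (ρ / l ^ m) / 48 ≤ B * (L / 48) := by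
      have : B * (L / 48) = B * L / 48 := by ring
      rw [this]
      gcongr
    have h4 : 0 ≤ V := le_trans (by positivity) hV'
    have h5 : 0 ≤ B * (L / 48) := le_trans (by positivity) h3
    gcongr
  refine le_trans ?_ h2
  have e : (1 / l ^ m) ^ (2 * (k + 1)) * (c * N) / W * ((ρ / l ^ m) / 48 * (ρ / l ^ m) ^ k) =
      N / l ^ (3 * m * (k + 1) + 1) * (c * ρ ^ (k + 1) / (48 * W) * l) := by
    have e1 : (1 / l ^ m) ^ (2 * (k + 1)) = 1 / l ^ (2 * m * (k + 1)) := by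
      rw [div_pow, one_pow, ← pow_mul]
      congr 2
      ring
    have e2 : (ρ / l ^ m) / 48 * (ρ / l ^ m) ^ k = ρ ^ (k + 1) / (48 * l ^ (m * (k + 1))) := by
      rw [div_pow, ← pow_mul]
      have : l ^ (m * (k + 1)) = l ^ m * l ^ (m * k) := by rw [← pow_add]; congr 1; ring
      rw [this, pow_succ]
      rw [div_div, div_mul_div_comm]
      congr 1
      · ring
      · ring
    have e3 : l ^ (3 * m * (k + 1) + 1) = l ^ (2 * m * (k + 1)) * l ^ (m * (k + 1)) * l := by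
      rw [← pow_add, ← pow_succ]
      congr 1
      ring
    rw [e1, e2, e3]
    field_simp
  rw [e]
  apply le_mul_of_one_le_right (by positivity)
  rw [div_le_iff₀ (by positivity)] at hbig
  rw [div_mul_eq_mul_div, le_div_iff₀ (by positivity)]
  linarith

/-! ### centres -/

/-- centres -/
noncomputable def xc (α h : Fin k → ℤ) (c₀ : ℝ) (N : ℕ) (i : Fin k) : ℝ :=
  N + α i * (c₀ * N) + h i

theorem aI_one (α : Fin k → ℤ) (hα : ∀ i, α i = 1 ∨ α i = -1) (i : Fin k) : aI α i = 1 := by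
  unfold aI
  rcases hα i with h | h <;> rw [h] <;> rfl

/-- sizes of the centres -/
theorem xc_ev (α h : Fin k → ℤ) (hα : ∀ i, α i = 1 ∨ α i = -1) (c₀ : ℝ) (hc1 : 1 / 8 ≤ c₀)
    (hc2 : c₀ ≤ 1 / 4) : ∀ᶠ N : ℕ in atTop, ∀ i,
      (N : ℝ) / 2 ≤ xc α h c₀ N i ∧ xc α h c₀ N i ≤ 2 * N := by
  rw [Filter.eventually_all]
  intro i
  have h1 : ∀ᶠ N : ℕ in atTop, 8 * |(h i : ℝ)| ≤ (N : ℝ) :=
    tendsto_natCast_atTop_atTop.eventually_ge_atTop _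
  filter_upwards [h1, eventually_ge_atTop 1] with N hN hN1
  have hN0 : (1 : ℝ) ≤ N := by exact_mod_cast hN1
  have h4 := abs_le.1 (le_refl |(h i : ℝ)|)
  have h5 : c₀ * N ≤ 1 / 4 * N := mul_le_mul_of_nonneg_right hc2 (by linarith)
  have h6 : 1 / 8 * N ≤ c₀ * N := mul_le_mul_of_nonneg_right hc1 (by linarith)
  unfold xc
  rcases hα i with h | h
  · rw [h]
    push_cast
    constructor <;> linarith [h4.1, h4.2]
  · rw [h]
    push_cast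
    constructor <;> linarith [h4.1, h4.2]

/-- the bundle of sizes -/
structure SzB (n x κ : ℝ) (N : ℕ) : Prop where
  hx : 0 < x
  hκ : 0 < κ * n / x
  hκlo : κ / 16 ≤ κ * n / x
  hκhi : κ * n / x ≤ κ
  hx1 : 1 ≤ x * Real.exp (-(4 * (κ * n / x)))
  hx2 : x * Real.exp (4 * (κ * n / x)) ≤ ⌈3 * x⌉₊
  big : (N : ℝ) / 4 ≤ x - κ * n
  up : x + κ * n ≤ 4 * N
  hXi : x + κ * n ≤ ⌈3 * x⌉₊
  lo : (N : ℝ) / 2 ≤ x
  hi : x ≤ 2 * N
  one : 1 ≤ x + κ * n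

theorem szB (n x κ : ℝ) (N : ℕ) (hN : 8 ≤ N) (hκ : 0 < κ) (hκ1 : κ ≤ 1 / 64)
    (hn1 : (N : ℝ) / 8 ≤ n) (hn2 : n ≤ N / 4) (hx1 : (N : ℝ) / 2 ≤ x) (hx2 : x ≤ 2 * N) :
    SzB n x κ N := by
  have hN0 : (8 : ℝ) ≤ N := by exact_mod_cast hN
  have hn0 : 0 < n := by linarith
  have hx0 : 0 < x := by linarith
  have hx4 : 4 ≤ x := by linarith
  have hnx : n ≤ x / 2 := by linarith
  have hκi : κ * n / x ≤ κ / 2 := by
    rw [div_le_iff₀ hx0]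
    have := mul_le_mul_of_nonneg_left hnx hκ.le
    calc κ * n ≤ κ * (x / 2) := this
      _ = _ := by ring
  have hκi0 : 0 < κ * n / x := by positivity
  have hκn : κ * n ≤ 1 / 64 * n := mul_le_mul_of_nonneg_right hκ1 hn0.le
  have hκn0 : 0 < κ * n := by positivity
  have hexp : Real.exp (4 * (κ * n / x)) ≤ 2 := by
    have h2 : 4 * (κ * n / x) ≤ 1 / 2 := by linarith
    calc Real.exp (4 * (κ * n / x)) ≤ Real.exp (1 / 2) := Real.exp_le_exp.2 h2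
      _ ≤ 2 := by
        have := Real.exp_one_lt_d9
        have h3 : Real.exp (1 / 2) ^ 2 = Real.exp 1 := by
          rw [← Real.exp_nat_mul]; norm_num
        by_contra hc
        have h4 : (2 : ℝ) ^ 2 < Real.exp (1 / 2) ^ 2 :=
          pow_lt_pow_left₀ (not_le.1 hc) (by norm_num) (by norm_num)
        rw [h3] at h4
        norm_num at h4
        linarith
  have hexp' : 1 / 2 ≤ Real.exp (-(4 * (κ * n / x))) := by
    rw [Real.exp_neg, one_div]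
    exact inv_anti₀ (Real.exp_pos _) hexp
  have hc : 3 * x ≤ (⌈3 * x⌉₊ : ℝ) := Nat.le_ceil _
  refine ⟨hx0, hκi0, ?_, by linarith, ?_, ?_, ?_, ?_, ?_, hx1, hx2, ?_⟩
  · rw [div_le_div_iff₀ (by norm_num) hx0]
    have h2 : x ≤ n * 16 := by linarith
    calc κ * x ≤ κ * (n * 16) := mul_le_mul_of_nonneg_left h2 hκ.le
      _ = _ := by ring
  · calc (1 : ℝ) ≤ x * (1 / 2) := by linarith
      _ ≤ _ := mul_le_mul_of_nonneg_left hexp' hx0.le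
  · calc x * Real.exp (4 * (κ * n / x)) ≤ x * 2 := mul_le_mul_of_nonneg_left hexp hx0.le
      _ ≤ _ := by linarith
  · linarith
  · linarith
  · linarith
  · linarith

theorem sz_evB (α h : Fin k → ℤ) (hα : ∀ i, α i = 1 ∨ α i = -1) (c₀ : ℝ) (hc1 : 1 / 8 ≤ c₀)
    (hc2 : c₀ ≤ 1 / 4) (κ : ℝ) (hκ : 0 < κ) (hκ1 : κ ≤ 1 / 64) :
    ∀ᶠ N : ℕ in atTop, ∀ i, SzB (c₀ * N) (xc α h c₀ N i) κ N := by
  filter_upwards [xc_ev α h hα c₀ hc1 hc2, eventually_ge_atTop 8] with N hx hN i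
  have hN0 : (8 : ℝ) ≤ N := by exact_mod_cast hN
  have h5 : c₀ * N ≤ 1 / 4 * N := mul_le_mul_of_nonneg_right hc2 (by linarith)
  have h6 : 1 / 8 * N ≤ c₀ * N := mul_le_mul_of_nonneg_right hc1 (by linarith)
  exact szB (c₀ * N) (xc α h c₀ N i) κ N hN hκ hκ1 (by linarith) (by linarith) (hx i).1 (hx i).2

theorem geo_evB (α h : Fin k → ℤ) (hα : ∀ i, α i = 1 ∨ α i = -1) (c₀ : ℝ) (hc1 : 1 / 8 ≤ c₀)
    (hc2 : c₀ ≤ 1 / 4) (κ : ℝ) (hκ : 0 < κ) (hκ1 : κ ≤ 1 / 64) (B : ℕ) (ρ₁ : ℝ)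
    (hρ₁ : ρ₁ ≤ 1 / 4) (D : ℕ) (hW : 1 ≤ WW D) :
    ∀ᶠ N : ℕ in atTop, ∀ v : ℕ, Geo α h D (DB (2 * N) B) N v (PB α h N B ρ₁) (c₀ * N)
      (κ * (c₀ * N)) N (xc α h c₀ N) (fun i => ⌈3 * xc α h c₀ N i⌉₊) (vf α h D N v) := by
  have hα0 : ∀ i, α i ≠ 0 := fun i => by rcases hα i with h | h <;> rw [h] <;> norm_num
  have h2 : ∀ᶠ N : ℕ in atTop, (3 : ℝ) * (Real.log N) ^ (B + 1) * (N : ℝ) ^ (0 : ℝ) ≤
      (N : ℝ) ^ (1 / 2 : ℝ) := ev_poly _ (B + 1) 0 (1 / 2) (by norm_num)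
  have h3 : ∀ᶠ N : ℕ in atTop, (16 : ℝ) * (Real.log N) ^ 0 * (N : ℝ) ^ (1 / 2 : ℝ) ≤
      (N : ℝ) ^ (1 : ℝ) := ev_poly _ 0 (1 / 2) 1 (by norm_num)
  filter_upwards [sz_evB α h hα c₀ hc1 hc2 κ hκ hκ1, h2, h3, ev_log 1, eventually_ge_atTop 8,
    DB_up B] with N hsz h2 h3 hl hN hDB v
  have hN8 : (8 : ℝ) ≤ N := by exact_mod_cast hN
  have hN0 : (0 : ℝ) < N := by linarith
  rw [Real.rpow_zero, mul_one] at h2
  rw [pow_zero, mul_one, Real.rpow_one] at h3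
  have hc0 : 0 < c₀ := by linarith
  have hn0 : 0 < c₀ * N := by positivity
  have hnN : c₀ * N ≤ 1 / 4 * N := mul_le_mul_of_nonneg_right hc2 (by linarith)
  have hl3 : 1 ≤ (Real.log N) ^ (B + 1) := one_le_pow₀ hl
  have hκn : κ * (c₀ * N) ≤ 1 / 64 * (c₀ * N) := mul_le_mul_of_nonneg_right hκ1 hn0.le
  constructor
  · positivity
  · linarith
  · linarith
  · exact le_rfl
  · intro i
    rw [aI_one α hα i]
    unfold xc
    push_cast
    ring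
  · intro i
    exact (hsz i).hXi
  · intro i
    have h4 := (hsz i).big
    rw [aI_one α hα i]
    have h7 : (0 : ℝ) < (N : ℝ) ^ (1 / 2 : ℝ) := by positivity
    push_cast
    linarith
  · intro i p hp
    have h4 := (hsz i).big
    rw [aI_one α hα i]
    have h5 := (PB_spec α h N B ρ₁ hρ₁ (by omega) p hp).2.2.2.1
    have h6 : Real.exp (Real.log N / 4) ≤ (N : ℝ) ^ (1 / 2 : ℝ) := by
      rw [Real.rpow_def_of_pos hN0]
      apply Real.exp_le_exp.2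
      linarith
    have h7 : (0 : ℝ) < (N : ℝ) ^ (1 / 2 : ℝ) := by positivity
    push_cast
    linarith
  · intro i y
    exact vf_spec α h hα0 D N v hW i y

end Pool.Agent.W460.UBT
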