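import Mathlib
import Pool.Agent.W460.UB.TWbA

/-! Project UB: prime sums for narrow tents, new parameters (`St_TWb`). -/

set_option autoImplicit false

namespace Pool.Agent.W460.UBT

open Finset Filter Topology
open Pool.Agent.H410R2 hiding GP GP_prof GP_cut_some GP_cut_none GP_lip gg_pos gg_le_one gg_anti ee_bound ee_nonneg gg_lip LB_gg LB_ee Sums exists_sums yx wx wxi Br sum_GP_none sum_GP_some sum_GP_some_ee sum_GP_some_one sum_GPr_none sum_GPr_some S1_final QI_final S2_final w_abs_le wmax gg ee I1 I2 IE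
open Pool.Agent.H361R2.GM
open Pool.Agent.H362R2.CM
open Pool.Agent.W25.UN
open Pool.Agent.W25.UB (DB PB)

variable {k : ℕ}

/-- the error of the second sums -/
theorem E2_leB (hEq : Eq2) (P : Finset ℕ) (a b' D : ℕ) (ha : 1 ≤ a) (hb1 : 1 ≤ b')
    (hW : 1 ≤ WW D) (haW : ∀ p : ℕ, p.Prime → p ∣ a → p ∣ WW D) (R x κ' l Er : ℝ)
    (C2 b J s : ℕ) (hl1 : 1 ≤ l) (hκ' : 0 < κ') (hκ'1 : κ' ≤ 1) (hx : 3 ≤ x)
    (Bq : ℕ) (hJ1 : ((J : ℝ) + 2) ≤ l ^ s) (hBq : s ≤ Bq)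
    (h1 : l ^ Bq *
      ((∏ t : IP P, (1 + ((k + 1 : ℕ) : ℝ) / ((prP P t : ℝ) - 1)) *
        ((prP P t : ℝ) / ((prP P t : ℝ) - 1))) ^ 2 *
      ∑ m ∈ (Icc 1 ⌊((2 : ℝ) ^ 2 ^ J) ^ (C2 * b) * (Real.exp R) ^ 2⌋₊).filter Squarefree,
        (3 * ((k + 1 : ℕ) : ℝ)) ^ m.primeFactors.card * Dev a b' x κ' (WW D * m)) ≤ Er) :
    E2 k P a b' (WW D) 1 R x κ' C2 b J ≤ Er := by
  refine le_trans ?_ h1
  unfold E2
  have h2 : (1 : ℝ) ^ 2 * ((J : ℝ) + 2) ≤ l ^ Bq := by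
    calc (1 : ℝ) ^ 2 * ((J : ℝ) + 2) = (J : ℝ) + 2 := by ring
      _ ≤ l ^ s := hJ1
      _ ≤ l ^ Bq := pow_le_pow_right₀ hl1 hBq
  rw [← mul_assoc]
  apply mul_le_mul_of_nonneg_right h2
  apply mul_nonneg (sq_nonneg _)
  apply Finset.sum_nonneg
  intro m _
  apply mul_nonneg (by positivity)
  have hx4 : x * Real.exp κ' ≤ (⌈x * Real.exp κ'⌉₊ : ℝ) := Nat.le_ceil _
  have hx5 : 1 ≤ x * Real.exp (-κ') := by
    have h3 : Real.exp κ' ≤ 3 := by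
      calc Real.exp κ' ≤ Real.exp 1 := Real.exp_le_exp.2 hκ'1
        _ ≤ 3 := by
          have := Real.exp_one_lt_d9
          linarith
    rw [Real.exp_neg, ← div_eq_mul_inv, le_div_iff₀ (Real.exp_pos _)]
    linarith
  exact (hEq a b' (WW D) x κ' ⌈x * Real.exp κ'⌉₊ ha hb1 hW haW hκ' hx5 hx4).1 _

/-- eventual form of the prime number theorem for all forms -/
theorem pn_evB (hPN : PntT) (α h : Fin k → ℤ) (hα : ∀ i, α i = 1 ∨ α i = -1) (c₀ : ℝ)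
    (hc1 : 1 / 8 ≤ c₀) (hc2 : c₀ ≤ 1 / 4) (ε κ1 : ℝ) (hε : 0 < ε) (hκ1 : 0 < κ1) :
    ∀ᶠ N : ℕ in atTop, ∀ i : Fin k, ∀ κ' : ℝ, κ1 ≤ κ' → κ' ≤ 1 →
      |Mt (aI α i) (xc α h c₀ N i) κ' - ts (xc α h c₀ N i) κ'| ≤
        ε * (κ' * xc α h c₀ N i) := by
  rw [Filter.eventually_all]
  intro i
  have ha : 1 ≤ aI α i := by rw [aI_one α hα i]
  obtain ⟨X1, hX1⟩ := Filter.eventually_atTop.1 (hPN (aI α i) ε κ1 ha hε hκ1)
  have h2 : ∀ᶠ N : ℕ in atTop, 2 * X1 ≤ (N : ℝ) :=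
    tendsto_natCast_atTop_atTop.eventually_ge_atTop _
  filter_upwards [h2, xc_ev α h hα c₀ hc1 hc2] with N h3 h4
  apply hX1
  refine le_trans ?_ (h4 i).1
  linarith

/-- eventual form of the error bound for all forms -/
theorem er_evB (hER : ErrU) (hEq : Eq2) (α h : Fin k → ℤ) (hα : ∀ i, α i = 1 ∨ α i = -1)
    (c₀ : ℝ) (hc1 : 1 / 8 ≤ c₀) (hc2 : c₀ ≤ 1 / 4) (B : ℕ) (hB : 3 ≤ B) (D : ℕ)
    (hW : 1 ≤ WW D) (ρ κ1 : ℝ) (A1 C2 b : ℕ)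
    (hρ : 0 < ρ) (hρ1 : ρ ≤ 1 / 16) (hκ1 : 0 < κ1) :
    ∀ᶠ N : ℕ in atTop, ∀ i : Fin k, ∀ (P : Finset ℕ), (∀ p ∈ P, p.Prime ∧ (p : ℝ) ≤ N) →
      ∀ κ' : ℝ, κ1 ≤ κ' → κ' ≤ 1 →
      E2 k P (aI α i) (bI α h N i) (WW D) 1 ((1 / 4 - ρ / 2) * Real.log N)
        (xc α h c₀ N i) κ' C2 b (Jb (DB (2 * N) B)) ≤ N / (Real.log N) ^ A1 := by
  have hα0 : ∀ i, α i ≠ 0 := fun i => by rcases hα i with h | h <;> rw [h] <;> norm_num
  set s : ℕ := 2 * (B + 1) + 2 with hs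
  set q : ℕ := (2 * (B + 1) + 1) * (C2 * b) + s with hq
  have hERi : ∀ᶠ N : ℕ in atTop, ∀ i : Fin k, ∀ (P : Finset ℕ),
      (∀ p ∈ P, p.Prime ∧ (p : ℝ) ≤ N) → ∀ (b' : ℕ) (x κ' Y : ℝ), b' ≤ aI α i →
      1 / 2 * N ≤ x → x ≤ 2 * N → κ1 ≤ κ' → κ' ≤ 1 → 0 ≤ Y →
      Y ≤ (Real.log N) ^ q →
      (Real.log N) ^ q *
      ((∏ t : IP P, (1 + ((k + 1 : ℕ) : ℝ) / ((prP P t : ℝ) - 1)) *
        ((prP P t : ℝ) / ((prP P t : ℝ) - 1))) ^ 2 *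
      ∑ m ∈ (Icc 1 ⌊Y * (Real.exp ((1 / 4 - ρ / 2) * Real.log N)) ^ 2⌋₊).filter Squarefree,
        (3 * ((k + 1 : ℕ) : ℝ)) ^ m.primeFactors.card * Dev (aI α i) b' x κ' (WW D * m)) ≤
      N / (Real.log N) ^ A1 := by
    rw [Filter.eventually_all]
    intro i
    have ha : 1 ≤ aI α i := by rw [aI_one α hα i]
    exact hER k (aI α i) (WW D) ρ κ1 (1 / 2) 2 A1 _ ha hW hρ hρ1 hκ1 (by norm_num)
  filter_upwards [hERi, xc_ev α h hα c₀ hc1 hc2, DB_up B, ev_DB B hB 5, ev_log 4,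
    eventually_ge_atTop 8]
    with N her hx hDBu hDB5 hl4 hN i P hP κ' hκ' hκ'1
  have hl : 1 ≤ Real.log N := by linarith
  have hJ := Jb_up (DB (2 * N) B) (B + 1) (Real.log N) hDB5 hl4 hDBu
  obtain ⟨hb1, hb2, -⟩ := bI_spec α h hα0 N i
  have hN8 : (8 : ℝ) ≤ N := by exact_mod_cast hN
  have hlo := (hx i).1
  have hY : ((2 : ℝ) ^ 2 ^ Jb (DB (2 * N) B)) ^ (C2 * b) ≤ (Real.log N) ^ q := by
    calc ((2 : ℝ) ^ 2 ^ Jb (DB (2 * N) B)) ^ (C2 * b) ≤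
          ((Real.log N) ^ (2 * (B + 1) + 1)) ^ (C2 * b) :=
          pow_le_pow_left₀ (by positivity) hJ.1 _
      _ = (Real.log N) ^ ((2 * (B + 1) + 1) * (C2 * b)) := by rw [← pow_mul]
      _ ≤ _ := pow_le_pow_right₀ hl (by omega)
  have h1 := her i P hP (bI α h N i) (xc α h c₀ N i) κ'
    (((2 : ℝ) ^ 2 ^ Jb (DB (2 * N) B)) ^ (C2 * b))
    hb2 (by linarith) (hx i).2 hκ' hκ'1 (by positivity) hY
  refine E2_leB hEq P (aI α i) (bI α h N i) D (aI_pos α hα0 i) hb1 hW ?_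
    ((1 / 4 - ρ / 2) * Real.log N) (xc α h c₀ N i) κ'
    (Real.log N) (N / (Real.log N) ^ A1) C2 b (Jb (DB (2 * N) B)) s hl
    (by linarith) hκ'1 (by linarith) q hJ.2 (by omega) h1
  intro p hp hd
  rw [aI_one α hα i] at hd
  exact absurd (Nat.dvd_one.1 hd) hp.one_lt.ne'

/-- in the support of the tent all forms are nonzero -/
theorem Fm_neB {α h : Fin k → ℤ} (hα : ∀ i, α i ≠ 0) {D D' N v : ℕ} {P : Finset ℕ}
    {n0 Δ : ℝ} {x0 : Fin k → ℝ} {Xi vi : Fin k → ℕ} (G : Geo α h D D' N v P n0 Δ N x0 Xi vi)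
    (n : ℕ) (hn : |(n : ℝ) - n0| < Δ) :
    1 ≤ n ∧ n ≤ N ∧ ∀ i, (N : ℤ) + α i * n + h i ≠ 0 := by
  have h1 := abs_lt.1 hn
  have h2 := G.g1
  have h3 := G.nX
  refine ⟨?_, ?_, ?_⟩
  · have : (0 : ℝ) < n := by linarith
    have : 0 < n := by exact_mod_cast this
    omega
  · have : (n : ℝ) ≤ N := by linarith
    exact_mod_cast this
  · intro j hj
    have ha : (0 : ℝ) < aI α j := by exact_mod_cast aI_pos α hα j
    have hFr : (((N : ℤ) + α j * n + h j : ℤ) : ℝ) =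
        aI α j * x0 j + α j * (n - n0) := by
      rw [G.hx0 j]
      push_cast
      ring
    have habs : |(α j : ℝ)| = aI α j := by
      have := aI_abs α j
      rw [← Int.cast_abs, ← this, Int.cast_natCast]
    have h5 : -(aI α j * Δ) < α j * ((n : ℝ) - n0) := by
      have h3 : |α j * ((n : ℝ) - n0)| < aI α j * Δ := by
        rw [abs_mul, habs]
        exact mul_lt_mul_of_pos_left hn ha
      exact (abs_lt.1 h3).1
    rw [hj] at hFr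
    have h6 := G.big1 j
    have h7 : (0 : ℝ) ≤ D' := Nat.cast_nonneg _
    push_cast at hFr
    linarith

/-- bound (II), generic parameters -/
theorem fix_IIB {α h : Fin k → ℤ} {D D' N v : ℕ} {P : Finset ℕ} {n0 : ℝ} {x0 : Fin k → ℝ}
    {vi : Fin k → ℕ} {C2 : ℕ} (hPS : PS2At (k + 1) C2) (hEq : Eq2) (hTn : Tents)
    (hRC : RootsCount)
    (hSd : SdLZ) (hWE : WEq) (H : Hyp α h D D' N v P) (Q : SPar) (ρ ε l : ℝ) (b A1 Jj : ℕ)
    (hk : 2 ≤ k) (hρ : 0 < ρ) (hρ1 : ρ ≤ 1 / 16) (hε : 0 < ε) (hε1 : ε < 1 / 3)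
    (hI1 : ε < Q.I1) (hBr : 0 < Br Q k ε)
    (hl : l = Real.log N) (hl2 : 2 ≤ l) (hN : 8 ≤ N)
    (hb : C2 ≤ b) (hCD : C2 ≤ D) (hβ : (1 / 2 : ℝ) ^ b ≤ ε / 8) (hJ : D' ≤ 2 ^ 2 ^ Jj)
    (hn0p : 0 < n0) (ha1 : ∀ i, aI α i = 1)
    (G : Geo α h D D' N v P n0 (ε / 400 * n0) N x0 (fun i => ⌈3 * x0 i⌉₊) vi) (i : Fin k)
    (hsz : SzB n0 (x0 i) (ε / 400) N)
    (hpn : ∀ κ' : ℝ, ε / 400 / 16 ≤ κ' → κ' ≤ 1 →
      |Mt (aI α i) (x0 i) κ' - ts (x0 i) κ'| ≤ ε / 8 * (κ' * x0 i))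
    (hE2 : ∀ κ' : ℝ, ε / 400 / 16 ≤ κ' → κ' ≤ 1 →
      E2 k P (aI α i) (bI α h N i) (WW D) 1 ((1 / 4 - ρ / 2) * l) (x0 i) κ' C2 b
        Jj ≤ N / l ^ A1)
    (hQL : (1 - ε) ^ 2 * (BD D' * (ρ * l) * (Q.I1 - ε)) ^ 2 *
      (BD D' * (ρ * l / 48) * (BD D' * (ρ * l)) ^ (k - 1) * Br Q k ε) ≤
      QI (some i) (prP P) (cw (prP P) (yP Q k P (ρ * l))))
    (hw : ∀ n : ℕ, |(n : ℝ) - n0| < ε / 400 * n0 →
      (wIZ (uB α) (wB h N) P i (yP Q k P (ρ * l)) n) ^ 2 ≤ (N : ℝ) ^ (1 / 10 : ℝ))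
    (hpoly : 8 * (Real.log N) ^ (A1 + 1) * (N : ℝ) ^ (6 / 10 : ℝ) ≤ (N : ℝ) ^ (1 : ℝ))
    (Z : ℝ) (hZ : Z = ZZ k (VV α h N D D') (ε / 400 * n0) (WW D) (BD D') (ρ * l))
    (hErr : N / l ^ A1 ≤ Z / l)
    (hlA : (3 / (ρ * ((1 - ε) ^ 3 * (Q.I1 - ε) ^ 2 * Br Q k ε)) + 2) / ε ≤ l) :
    Z * (ρ * βc Q k ε) ≤ ∑ n ∈ Ns α h D D' N v N, (if (Fm α h N i n).toNat.Prime then
      lt n0 (ε / 400 * n0) n * (wZ Q (uB α) (wB h N) P (ρ * l) n) ^ 2 else 0) := by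
  have hNR : (8 : ℝ) ≤ N := by exact_mod_cast hN
  have hN0 : (0 : ℝ) < N := by linarith
  have hl0 : 0 < l := by linarith
  have hL : 0 < ρ * l := by positivity
  have h1ε : 0 < 1 - ε := by linarith
  have hI1ε : 0 < Q.I1 - ε := by linarith
  have hR0 : 0 ≤ (1 / 4 - ρ / 2) * l := mul_nonneg (by linarith) hl0.le
  have hxp := hsz.hx
  set κi := ε / 400 * n0 / x0 i with hκi
  have hκ4 : κi ≤ ε / 400 := hsz.hκhi
  have hκ0 : 0 < κi := hsz.hκ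
  have hκlo : ε / 400 / 16 ≤ κi := hsz.hκlo
  have hΔi : ε / 400 * n0 = κi * x0 i := by
    rw [hκi]; field_simp
  have hBD := BD_pos D'
  have hW : (0 : ℝ) < WW D := by exact_mod_cast H.hW
  have hV := VV_pos hRC H
  have hNl : 0 ≤ (N : ℝ) / l ^ A1 := by positivity
  have hup : (aI α i : ℝ) * (x0 i + ε / 400 * n0) ≤ 4 * N := by
    rw [ha1 i, Nat.cast_one, one_mul]
    exact hsz.up
  have hge1 : 1 ≤ (aI α i : ℝ) * (x0 i + ε / 400 * n0) := by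
    rw [ha1 i, Nat.cast_one, one_mul]
    exact hsz.one
  have hS2 := (est_S2 hPS hEq hTn hRC hSd H G (BD_split H.hDD) hBD i (yP Q k P (ρ * l)) 1
    one_pos (fun σ => y_le_one Q P (ρ * l) hL σ) ((1 / 4 - ρ / 2) * l) hR0
    (fun σ hσ => supp_y Q P ρ l hρ1 hl0 σ hσ) κi b Jj hb hCD hJ hκ0 (by linarith) hxp
    hΔi hsz.hx1 hsz.hx2 (ε / 8) (by positivity) (by linarith)
    (hpn κi hκlo (by linarith)) (hpn (4 * κi) (by linarith) (by linarith)) (N / l ^ A1) hNl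
    (hE2 κi hκlo (by linarith)) (hE2 (4 * κi) (by linarith) (by linarith))).1
  obtain ⟨j, hij⟩ : ∃ j : Fin k, i ≠ j := by
    by_cases h0 : i = ⟨0, by omega⟩
    · exact ⟨⟨1, by omega⟩, by rw [h0]; simp⟩
    · exact ⟨⟨0, by omega⟩, h0⟩
  have hlog : Real.log (aI α i * (x0 i + ε / 400 * n0)) ≤ l + 2 := by
    have h3 : Real.log (aI α i * (x0 i + ε / 400 * n0)) ≤
        Real.log (4 * N) := by
      apply Real.log_le_log _ hup
      linarith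
    have h4 : Real.log (4 * N) = Real.log 4 + l := by
      rw [Real.log_mul (by norm_num) hN0.ne', hl]
    have h5 : Real.log 4 ≤ 2 := by
      have h6 : Real.log 4 = 2 * Real.log 2 := by
        rw [show (4 : ℝ) = 2 ^ 2 by norm_num, Real.log_pow]
        norm_num
      have := Real.log_two_lt_d9
      linarith
    linarith
  have hconv := conv_low hRC hWE H G Q (ρ * l) (l + 2) ((N : ℝ) ^ (1 / 10 : ℝ)) i j hij hlog
    (by positivity) hw hsz.one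
  have hbad := bad_small N A1 l (aI α i * (x0 i + ε / 400 * n0)) hl hl2 hN hge1 hup hpoly
  set β00 : ℝ := (1 - ε) ^ 3 * (Q.I1 - ε) ^ 2 * Br Q k ε with hβ00
  have hβ00p : 0 < β00 := by rw [hβ00]; positivity
  have hlow := low_alg k (by omega) (VV α h N D D') (ε / 400 * n0) (WW D)
    (BD D') (ρ * l) ε Q.I1 (Br Q k ε) _ hW hBD hV (by positivity) (by linarith) hQL
  rw [← hZ, ← hβ00] at hlow
  have hQI0 : 0 ≤ ε / 400 * n0 * (VV α h N D D' / (WW D * BD D') *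
      QI (some i) (prP P) (cw (prP P) (yP Q k P (ρ * l)))) := by
    have h3 : 0 ≤ QI (some i) (prP P) (cw (prP P) (yP Q k P (ρ * l))) := by
      refine le_trans ?_ hQL
      positivity
    positivity
  have hβ0 : 0 ≤ (1 / 2 : ℝ) ^ b := by positivity
  have hcoef : 1 - ε ≤ 1 - (1 / 2 : ℝ) ^ b - ε / 8 - 60 * κi := by linarith
  have h5 := mul_le_mul_of_nonneg_right hcoef hQI0
  have hZ0 : 0 < Z := by
    rw [hZ]
    unfold ZZ
    positivity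
  set S := ∑ n ∈ Ns α h D D' N v N, (if (Fm α h N i n).toNat.Prime then
      lt n0 (ε / 400 * n0) n * (wZ Q (uB α) (wB h N) P (ρ * l) n) ^ 2 else 0)
    with hSdef
  have hkey : ρ * l * Z * β00 - 3 * (Z / l) ≤ (l + 2) * S := by linarith
  have hZl : Z / l ≤ Z := div_le_self hZ0.le (by linarith)
  have hfin : (l + 2) * (Z * (ρ * βc Q k ε)) ≤ (l + 2) * S := by
    refine le_trans ?_ hkey
    have e2 : Z * (ρ * βc Q k ε) = (1 - ε) * (ρ * β00) * Z := by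
      unfold βc
      rw [hβ00]
      ring
    rw [e2]
    rw [div_le_iff₀ hε] at hlA
    have hρβ : 0 < ρ * β00 := by positivity
    have h6 : 3 ≤ (ρ * β00) * (ε * l - 2) := by
      have h7 : 3 / (ρ * β00) ≤ ε * l - 2 := by linarith
      rw [div_le_iff₀ hρβ] at h7
      linarith
    have h8 : (l + 2) * ((1 - ε) * (ρ * β00)) ≤ l * (ρ * β00) - 3 := by nlinarith
    have h9 := mul_le_mul_of_nonneg_right h8 hZ0.le
    calc (l + 2) * ((1 - ε) * (ρ * β00) * Z) = (l + 2) * ((1 - ε) * (ρ * β00)) * Z := by ring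
      _ ≤ (l * (ρ * β00) - 3) * Z := h9
      _ = ρ * l * Z * β00 - 3 * Z := by ring
      _ ≤ _ := by linarith
  exact le_of_mul_le_mul_left hfin (by linarith)

/-- (TWb) -/
theorem main (hPS2 : PS2) (hTn : Tents) (hRC : RootsCount) (hSd : SdLZ)
    (hWE : WEq) (hEq : Eq2) (hSU : Pool.Agent.W25.UB.St_SUM) (hCC : CLcard) (hPT : PtwU)
    (hPN : PntT) (hER : ErrU) (hQL : QLow) (hWF : WFacts) (hVL : VLow)
    (hTail : TailBound) : Pool.Agent.W25.UB.St_TWb := by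
  classical
  intro k Q ρ ρ₁ ε B hk hρ hρ1 hρρ hρ₁ hε hε1 hI1 hI2 hBr hB α h hα hdist
  have hα0 : ∀ i, α i ≠ 0 := fun i => by rcases hα i with h | h <;> rw [h] <;> norm_num
  have ha1 : ∀ i, aI α i = 1 := aI_one α hα
  obtain ⟨C2, hC2, hPS2⟩ := ps2At_of hPS2 (k + 1)
  obtain ⟨DW, hWF⟩ := hWF
  obtain ⟨DQ, hQL⟩ := hQL k
  obtain ⟨DT, hT⟩ := tails hTail k ε hε
  obtain ⟨C', hCC⟩ := hCC k α h hα0 hdist
  obtain ⟨b0, hb0⟩ := exists_pow_lt_of_lt_one (by positivity : 0 < ε / 8)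
    (by norm_num : (1 / 2 : ℝ) < 1)
  obtain ⟨b, hb2, hβ⟩ : ∃ b : ℕ, C2 ≤ b ∧ (1 / 2 : ℝ) ^ b ≤ ε / 8 :=
    ⟨b0 + C2, by omega, by
      refine le_trans ?_ hb0.le
      exact pow_le_pow_of_le_one (by norm_num) (by norm_num) (by omega)⟩
  have hκ : 0 < ε / 400 := by positivity
  have hκ1 : ε / 400 ≤ 1 / 64 := by linarith
  have h1ε : 0 < 1 - ε := by linarith
  have hI1p : 0 < Q.I1 := hε.trans hI1
  have hI1ε : 0 < Q.I1 - ε := by linarith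
  refine ⟨DW + C2 + 2 * (k + 1) + 1, fun D hD c₀ hc1 hc2 => ?_⟩
  have hD1 : DW ≤ D := by omega
  have hD3 : C2 ≤ D := by omega
  have hD4 : 2 * (k + 1) ≤ D := by omega
  obtain ⟨hW, htot, hBDp, hdvd, -⟩ := hWF D hD1
  have hWR : (0 : ℝ) < WW D := by exact_mod_cast hW
  have hc0 : 0 < c₀ := by linarith
  set A1 : ℕ := 3 * (B + 1) * (k + 1) + 2 with hA1
  filter_upwards [hCC, hSU Q (k + 1) ε ρ ρ₁ C' B hε hρ (by linarith) hB,
    sz_evB α h hα c₀ hc1 hc2 (ε / 400) hκ hκ1,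
    geo_evB α h hα c₀ hc1 hc2 (ε / 400) hκ hκ1 B ρ₁ hρ₁ D hW,
    ev_DB B hB (D + DQ + DT + 5), DB_up B,
    hPT k α h Q (1 / 10) (by norm_num),
    pn_evB hPN α h hα c₀ hc1 hc2 (ε / 8) (ε / 400 / 16) (by positivity) (by positivity),
    er_evB hER hEq α h hα c₀ hc1 hc2 B hB D hW ρ (ε / 400 / 16) A1 C2 b hρ hρ1 (by positivity),
    ev_poly 8 (A1 + 1) (6 / 10) 1 (by norm_num),
    ev_log 2, ev_log (48 * WW D / (ε / 400 * c₀ * ρ ^ (k + 1))),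
    ev_log ((3 / (ρ * ((1 - ε) ^ 3 * (Q.I1 - ε) ^ 2 * Br Q k ε)) + 2) / ε),
    eventually_ge_atTop 8]
    with N hCC hsums hsz hgeo hDp hDBu hpt10 hpn her hpoly2 hl2 hl3 hl5 hN8
  intro v hv Z hZ i
  have hN1 : 1 ≤ N := by omega
  have hNR : (8 : ℝ) ≤ N := by exact_mod_cast hN8
  have hl1 : 1 ≤ Real.log N := by linarith
  have hPs := PB_spec α h N B ρ₁ hρ₁ hN1
  have hPle : ∀ p ∈ PB α h N B ρ₁, p.Prime ∧ (p : ℝ) ≤ N :=
    fun p hp => ⟨(hPs p hp).1, (hPs p hp).2.2.2.2⟩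
  have hPleN : ∀ p ∈ PB α h N B ρ₁, p.Prime ∧ p ≤ N := fun p hp => ⟨(hPs p hp).1, by
    exact_mod_cast (hPs p hp).2.2.2.2⟩
  have hPD : ∀ p ∈ PB α h N B ρ₁, p.Prime ∧ DB (2 * N) B < p :=
    fun p hp => ⟨(hPs p hp).1, (hPs p hp).2.1⟩
  have H : Hyp α h D (DB (2 * N) B) N v (PB α h N B ρ₁) := {
    hα := hα0
    hW := hW
    tot := htot
    BDpos := hBDp
    hdvd := hdvd
    hDk := hD4
    hDα := fun i => by
      have h1 : (α i).natAbs = 1 := ha1 i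
      omega
    hDD := by omega
    hP := hPD
    hres := fun p hp j l hjl => CL_ndvd hCC.1 (hPs p hp).1 (hPs p hp).2.2.1 j l hjl
    hv := hv }
  have G := hgeo v
  have hS1 := ((hsums (CL (uB α) (wB h N)) (PB α h N B ρ₁) hCC.2 hPD).1
    (fun p hp hDp' hple hpC => by
      unfold PB
      rw [Finset.mem_filter, Finset.mem_Icc]
      exact ⟨⟨hDp', Nat.le_floor hple⟩, hp, hpC⟩)).2
  obtain ⟨hT1, hT2, hT3⟩ := hT (DB (2 * N) B) (by omega) (PB α h N B ρ₁) hPD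
  have hDp1 : 1 ≤ DB (2 * N) B := by omega
  have hVlow := hVL (k + 1) (DB (2 * N) B) (QQ D (DB (2 * N) B))
    (fun p => (Om (uB α) (wB h N) p).card) hDp1 (fun p hp => by
      have h1 := QQ_prime hp
      exact ⟨h1.1, by omega, h1.2.2,
        (hRC k (uB α) (wB h N) p h1.1 (fun j => H.uB_ndvd h1.1 h1.2.1 j)).2.1⟩)
  have hZlow : N / (Real.log N) ^ (3 * (B + 1) * (k + 1) + 1) ≤ Z := by
    rw [hZ]
    apply ZZ_lowB k (B + 1) (Pool.Agent.W25.UN.VV α h N D (DB (2 * N) B)) (ε / 400 * (c₀ * N))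
      (WW D) (BD (DB (2 * N) B))
      (ρ * Real.log N) (ε / 400 * c₀) (Real.log N) N (DB (2 * N) B) ρ hl1 hWR hρ rfl
    · exact_mod_cast hDp1
    · exact hDBu
    · exact hVlow.1
    · exact hVlow.2
    · ring
    · positivity
    · positivity
    · exact hl3
  have hErr : N / (Real.log N) ^ A1 ≤ Z / Real.log N := by
    have e1 : (N : ℝ) / (Real.log N) ^ A1 =
        N / (Real.log N) ^ (3 * (B + 1) * (k + 1) + 1) / Real.log N := by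
      rw [div_div, ← pow_succ]
    rw [e1]
    exact div_le_div_of_nonneg_right hZlow (by linarith)
  have hsd0 := H.sd0 hSd
  have hL0 : 0 < ρ * Real.log N := by positivity
  exact fix_IIB hPS2 hEq hTn hRC hSd hWE H Q ρ ε (Real.log N) b A1 (Jb (DB (2 * N) B)) hk hρ hρ1
      hε hε1 hI1 hBr rfl hl2 hN8 hb2 hD3 hβ (Jb_le _) (by positivity) ha1 G i (hsz i) (hpn i)
      (fun κ' h1 h2 => her i (PB α h N B ρ₁) hPle κ' h1 h2)
      (hQL (DB (2 * N) B) Q ε (by omega) hε hε1 hI1 hI2 hBr (ρ * Real.log N) (PB α h N B ρ₁)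
        hL0 hPD hT1 hT2 hS1 i)
      (fun n hd => by
        obtain ⟨q1, q2, q3⟩ := Fm_neB hα0 G n hd
        exact (hpt10 (PB α h N B ρ₁) (ρ * Real.log N) hL0 hPleN hsd0 n q1 q2 q3).2 i)
      hpoly2 Z hZ hErr hl5

end Pool.Agent.W460.UBT
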